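import Mathlib
import Pool.Agent.H8.Card2

namespace Pool.Agent.Results.MP_e95952_lc.Red

open Pool.Agent.H8.Card

theorem result : sNum = uNum → Polar sNum → uNum < dNum := fun h hP =>
  not_le.1 fun h' => not_polar h' (le_antisymm s_le_d (h ▸ h') ▸ hP)

end Pool.Agent.Results.MP_e95952_lc.Red
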